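import Pool.Agent.H683.CV.Lem

/-!
# Project CV: the key lemma on raising (S_HORN)
-/

set_option autoImplicit false

namespace Pool.Agent.H322.CVHORN

open Pool.Agent.H683.CV

/-- one removal -/
theorem rem (p t Fn : ℕ) (s x : ℕ → ℕ) (U : Finset ℕ → ℕ) (A : Finset ℕ) (j : ℕ)
    (hA : A ⊆ Finset.range p) (hj : j ∈ A) (hU : U A ≤ U (A.erase j) + t) (hx : t + s j ≤ x j)
    (h : Fn + ∑ j ∈ A, (x j - t) <
      U A + ∑ j ∈ A, s j + ∑ j ∈ Finset.range p \ A, min (x j) t) :
    Fn + ∑ j ∈ A.erase j, (x j - t) < U (A.erase j) + ∑ j ∈ A.erase j, s j +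
      ∑ j ∈ Finset.range p \ A.erase j, min (x j) t := by
  have h1 : ∑ i ∈ A.erase j, (x i - t) + (x j - t) = ∑ i ∈ A, (x i - t) :=
    Finset.sum_erase_add A (fun i => x i - t) hj
  have h2 : ∑ i ∈ A.erase j, s i + s j = ∑ i ∈ A, s i := Finset.sum_erase_add A s hj
  have h3 : Finset.range p \ A.erase j = insert j (Finset.range p \ A) :=
    Finset.sdiff_erase (hA hj)
  have h4 : ∑ i ∈ Finset.range p \ A.erase j, min (x i) t =
      min (x j) t + ∑ i ∈ Finset.range p \ A, min (x i) t := by
    rw [h3, Finset.sum_insert]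
    intro h5
    exact (Finset.mem_sdiff.1 h5).2 hj
  have h5 : min (x j) t = t := min_eq_right (by omega)
  rw [h4, h5]
  omega

theorem HORN : S_HORN := by
  classical
  intro p q t Fn s x x' cl U A hA hs hU hxx hrig hgap hgap' hok hviol
  set A0 := A.filter (fun j => x j < t + s j) with hA0
  have hA0A : A0 ⊆ A := Finset.filter_subset _ _
  -- the constraint of `A0` is violated
  have key : ∀ R : Finset ℕ, (∀ j ∈ R, t + s j ≤ x j) → A0 ∪ R ⊆ Finset.range p →
      Fn + ∑ j ∈ A0 ∪ R, (x j - t) <
        U (A0 ∪ R) + ∑ j ∈ A0 ∪ R, s j + ∑ j ∈ Finset.range p \ (A0 ∪ R), min (x j) t →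
      Fn + ∑ j ∈ A0, (x j - t) < U A0 + ∑ j ∈ A0, s j + ∑ j ∈ Finset.range p \ A0, min (x j) t := by
    intro R
    induction R using Finset.induction_on with
    | empty =>
      intro _ _ h
      rwa [Finset.union_empty] at h
    | insert j R hjR ih =>
      intro h1 h2 h3
      have hjm : j ∈ A0 ∪ insert j R := Finset.mem_union_right _ (Finset.mem_insert_self _ _)
      have hj0 : j ∉ A0 := by
        intro h
        have h4 := (Finset.mem_filter.1 h).2
        have h5 := h1 j (Finset.mem_insert_self _ _)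
        omega
      have he : (A0 ∪ insert j R).erase j = A0 ∪ R := by
        ext i
        simp only [Finset.mem_erase, Finset.mem_union, Finset.mem_insert]
        constructor
        · rintro ⟨g1, g2 | g2 | g2⟩
          · exact Or.inl g2
          · exact absurd g2 g1
          · exact Or.inr g2
        · rintro (g | g)
          · exact ⟨fun h => hj0 (h ▸ g), Or.inl g⟩
          · exact ⟨fun h => hjR (h ▸ g), Or.inr (Or.inr g)⟩
      have h6 := rem p t Fn s x U (A0 ∪ insert j R) j h2 hjm (hU _ h2 j hjm)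
        (h1 j (Finset.mem_insert_self _ _)) h3
      rw [he] at h6
      refine ih (fun i hi => h1 i (Finset.mem_insert_of_mem hi)) ?_ h6
      refine subset_trans ?_ h2
      exact Finset.union_subset_union_right (Finset.subset_insert _ _)
  have hun : A0 ∪ A.filter (fun j => ¬ x j < t + s j) = A := Finset.filter_union_filter_not_eq _ _
  have hv0 := key (A.filter (fun j => ¬ x j < t + s j))
    (fun j hj => by have := (Finset.mem_filter.1 hj).2; omega) (by rw [hun]; exact hA)
    (by rw [hun]; exact hviol)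
  have hk0 := hok A0 (hA0A.trans hA)
  have hmin : ∑ j ∈ Finset.range p \ A0, min (x j) t ≤ ∑ j ∈ Finset.range p \ A0, min (x' j) t := by
    refine Finset.sum_le_sum fun j hj => ?_
    have := hxx j (Finset.mem_range.1 (Finset.mem_sdiff.1 hj).1)
    omega
  have hlt : ∑ j ∈ A0, (x j - t) < ∑ j ∈ A0, (x' j - t) := by omega
  obtain ⟨i, hi, hit⟩ := Finset.exists_lt_of_sum_lt hlt
  have hiA : i ∈ A := hA0A hi
  have hip : i < p := Finset.mem_range.1 (hA hiA)
  have hic : x i < t + s i := (Finset.mem_filter.1 hi).2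
  refine ⟨⟨i, hiA, hic⟩, fun j hj hjc hmax => ?_⟩
  have hjp : j < p := Finset.mem_range.1 (hA hj)
  by_contra hcon
  have h1 := hxx j hjp
  have h2 : x' j = x j := by omega
  have h3 := hmax i hiA hic
  have h4 := hs j hjp
  rcases lt_trichotomy (cl i) (cl j) with h | h | h
  · have h5 := hgap' j hjp i hip h
    omega
  · have h5 := hrig i hip j hjp h
    omega
  · have h5 := hgap i hip j hjp h
    omega

end Pool.Agent.H322.CVHORN
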