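import Pool.Agent.H683.SC.PStm

/-!
# Project SC (helper683): a polynomial time reduction followed by a Turing machine (helper322)
-/

set_option autoImplicit false

namespace Pool.Agent.NPC.H322SC

open Turing Pool.Agent.NPC Pool.Agent.H633R2 Pool.Agent.H683.MC Pool.Agent.H683.SC

theorem ECTM : S_ECTM := by
  intro α β γ _ _ _ E r f A c p hr hA
  obtain ⟨c0, p0, h0⟩ := hr
  obtain ⟨prog, c', hc'⟩ := toCmd (ea := fun a => bits (r a)) (eb := (bits : γ → List Bool))
    (f := f) A (fun a => 2 ^ (c * E a) * p.eval (bits (r a)).length) hA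
  refine ⟨Cmd.seq c0 prog, c, p0 + Polynomial.C c' *
    ((Polynomial.X + p0) + p.comp (Polynomial.X + p0) + 1), fun a => ?_⟩
  refine ((h0 a).seq (hc' a)).mono ?_
  have hlen : (bits (r a)).length ≤ (Polynomial.X + p0).eval (bits a).length := by
    obtain ⟨t, ht, hrun⟩ := h0 a
    have := hrun.length_le 0
    simp only [inp, Function.update_self] at this
    simp only [Polynomial.eval_add, Polynomial.eval_X]
    omega
  have hp := eval_mono p hlen
  simp only [Polynomial.eval_add, Polynomial.eval_mul, Polynomial.eval_C, Polynomial.eval_one,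
    Polynomial.eval_comp, Polynomial.eval_X] at hlen hp ⊢
  generalize (bits a).length = x at *
  generalize Polynomial.eval x p0 = P0 at *
  generalize (bits (r a)).length = m at *
  generalize Polynomial.eval m p = M at *
  generalize Polynomial.eval (x + P0) p = N at *
  have h1 : 1 ≤ 2 ^ (c * E a) := Nat.one_le_two_pow
  generalize 2 ^ (c * E a) = z at *
  have g1 : m + z * M + 1 ≤ z * ((x + P0) + N + 1) := by
    have k1 : z * M ≤ z * N := Nat.mul_le_mul_left _ hp
    have k2 : x + P0 ≤ z * (x + P0) := Nat.le_mul_of_pos_left _ h1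
    have k3 : z * ((x + P0) + N + 1) = z * (x + P0) + z * N + z := by ring
    omega
  calc P0 + c' * (m + z * M + 1) ≤ z * P0 + c' * (z * ((x + P0) + N + 1)) :=
        Nat.add_le_add (Nat.le_mul_of_pos_left _ h1) (Nat.mul_le_mul_left _ g1)
    _ = z * (P0 + c' * ((x + P0) + N + 1)) := by ring

end Pool.Agent.NPC.H322SC
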